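import Pool.Agent.H46.SK.Targets

/-!
# The floor sum is a trilinear sum of parity signs, and the Fourier expansion of the parity sign
-/

namespace Pool.Agent.H14.PO

open SK Finset

theorem eps_zero (k : ℕ) : eps k 0 = 0 := by simp [eps]

theorem eps_ne {k : ℕ} {x : ZMod k} (hx : x ≠ 0) : eps k x = - (-1 : ℝ) ^ x.val := by
  unfold eps
  rw [if_neg hx]
  rcases Nat.even_or_odd x.val with h | h
  · rw [if_neg (by have := Nat.even_iff.1 h; omega), h.neg_one_pow]
  · rw [if_pos (Nat.odd_iff.1 h), h.neg_one_pow]; norm_num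

theorem eps_neg {k : ℕ} [Fact k.Prime] (hk : k ≠ 2) (x : ZMod k) : eps k (-x) = - eps k x := by
  have hp : k.Prime := Fact.out
  have : NeZero k := ⟨hp.ne_zero⟩
  have hodd : k % 2 = 1 := (hp.eq_two_or_odd).resolve_left hk
  by_cases hx : x = 0
  · subst hx; simp [eps_zero]
  · have hx' : -x ≠ 0 := neg_ne_zero.2 hx
    rw [eps_ne hx, eps_ne hx', ZMod.neg_val, if_neg hx]
    have hlt := ZMod.val_lt x
    have e : k = (k - x.val) + x.val := by omega
    have h1 : (-1 : ℝ) ^ k = -1 := (Nat.odd_iff.2 hodd).neg_one_pow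
    rw [e, pow_add] at h1
    have h2 : ((-1 : ℝ) ^ x.val) * ((-1 : ℝ) ^ x.val) = 1 := by
      rw [← pow_add, Even.neg_one_pow ⟨_, rfl⟩]
    have h3 : (-1 : ℝ) ^ (k - x.val) = - (-1 : ℝ) ^ x.val := by
      calc (-1 : ℝ) ^ (k - x.val)
          = (-1 : ℝ) ^ (k - x.val) * (((-1 : ℝ) ^ x.val) * ((-1 : ℝ) ^ x.val)) := by
            rw [h2, mul_one]
        _ = ((-1 : ℝ) ^ (k - x.val) * ((-1 : ℝ) ^ x.val)) * ((-1 : ℝ) ^ x.val) := by ring
        _ = - (-1 : ℝ) ^ x.val := by rw [h1]; ring
    rw [h3]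

theorem sum_eps {k : ℕ} [Fact k.Prime] (hk : k ≠ 2) : ∑ x : ZMod k, eps k x = 0 := by
  have h : ∑ x : ZMod k, eps k (-x) = ∑ x : ZMod k, eps k x :=
    Fintype.sum_equiv (Equiv.neg (ZMod k)) _ _ fun x => rfl
  have h2 : ∑ x : ZMod k, eps k (-x) = - ∑ x : ZMod k, eps k x := by
    rw [← Finset.sum_neg_distrib]
    exact Finset.sum_congr rfl fun x _ => eps_neg hk x
  linarith

theorem sum_eps_mul {k : ℕ} [Fact k.Prime] (hk : k ≠ 2) {h : ZMod k} (hh : h ≠ 0) :
    ∑ x : ZMod k, eps k (h * x) = 0 := by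
  rw [← sum_eps hk]
  exact Fintype.sum_equiv (Equiv.mulLeft₀ h hh) _ _ fun x => rfl

theorem sum_zmod' {k : ℕ} [NeZero k] (f : ZMod k → ℝ) (f0 : f 0 = 0) :
    ∑ y : ZMod k, f y = ∑ a ∈ Finset.Ico 1 k, f (a : ZMod k) := by
  have hk : 0 < k := Nat.pos_of_ne_zero (NeZero.ne k)
  have h1 : ∑ y : ZMod k, f y = ∑ a ∈ Finset.range k, f (a : ZMod k) := by
    refine Finset.sum_nbij' (fun y => y.val) (fun a => (a : ZMod k)) ?_ ?_ ?_ ?_ ?_
    · intro y _; exact Finset.mem_range.2 (ZMod.val_lt y)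
    · intro a _; exact Finset.mem_univ _
    · intro y _; exact ZMod.natCast_zmod_val y
    · intro a ha; exact ZMod.val_cast_of_lt (Finset.mem_range.1 ha)
    · intro y _; rw [ZMod.natCast_zmod_val]
  rw [h1, Finset.range_eq_Ico, Finset.sum_eq_sum_Ico_succ_bot hk, Nat.cast_zero, f0, zero_add]

theorem cast_ne {k a : ℕ} (h0 : 1 ≤ a) (ha : a < k) : (a : ZMod k) ≠ 0 := by
  rw [Ne, ZMod.natCast_eq_zero_iff]
  intro hd
  have := Nat.le_of_dvd h0 hd
  omega

theorem pf_TRI : TARGET_TRI := by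
  intro k hkp hk
  have hp : k.Prime := Fact.out
  have : NeZero k := ⟨hp.ne_zero⟩
  have hodd : k % 2 = 1 := (hp.eq_two_or_odd).resolve_left hk
  -- the inner sums
  have key : ∀ h ∈ Finset.Ico 1 k, (Sp h k : ℝ) =
      -(1 - eps k h) / 2 * ∑ j : ZMod k, eps k j * eps k ((h : ZMod k) * j) := by
    intro h hh
    obtain ⟨h1, hlt⟩ := Finset.mem_Ico.1 hh
    have hne := cast_ne h1 hlt
    have hval : ((h : ℕ) : ZMod k).val = h := ZMod.val_cast_of_lt hlt
    have hSp : (Sp h k : ℝ) = ∑ j ∈ Finset.Ico 1 k, (-1 : ℝ) ^ (j + 1 + h * j / k) := by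
      unfold Sp; push_cast; rfl
    have hmod : ∀ j : ℕ, k * (h * j / k) + h * j % k = h * j := fun j => Nat.div_add_mod _ _
    rcases Nat.even_or_odd h with he | ho
    · have hep : eps k h = -1 := by
        rw [eps_ne hne, hval, he.neg_one_pow]
      rw [hep, sum_zmod' _ (by rw [eps_zero, zero_mul]), hSp, Finset.mul_sum]
      refine Finset.sum_congr rfl fun j hj => ?_
      obtain ⟨hj1, hjlt⟩ := Finset.mem_Ico.1 hj
      have hjne := cast_ne hj1 hjlt
      have hjval : ((j : ℕ) : ZMod k).val = j := ZMod.val_cast_of_lt hjlt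
      have hv : ((h : ZMod k) * (j : ZMod k)).val = h * j % k := by
        rw [← Nat.cast_mul, ZMod.val_natCast]
      rw [eps_ne hjne, eps_ne (mul_ne_zero hne hjne), hjval, hv]
      have hpar : Even (j + 1 + h * j / k + (1 + j + h * j % k)) := by
        have hm := hmod j
        generalize h * j / k = q at hm ⊢
        generalize h * j % k = r at hm ⊢
        have h1 : Even (k * q + r) := by rw [hm]; exact he.mul_right j
        have h2 : ¬ Even k := Nat.not_even_iff_odd.2 (Nat.odd_iff.2 hodd)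
        rw [Nat.even_add, Nat.even_mul] at h1
        have h3 : Even q ↔ Even r := by tauto
        have h4 : Even (q + r) := Nat.even_add.2 h3
        obtain ⟨m, hm⟩ := h4
        exact ⟨j + 1 + m, by omega⟩
      have e3 : (-1 : ℝ) ^ (j + 1 + h * j / k) = (-1 : ℝ) ^ (1 + j + h * j % k) := by
        have h4 := hpar.neg_one_pow (α := ℝ)
        rw [pow_add _ (j + 1 + h * j / k)] at h4
        have h5 : ((-1 : ℝ) ^ (1 + j + h * j % k)) * ((-1 : ℝ) ^ (1 + j + h * j % k)) = 1 := by
          rw [← pow_add, Even.neg_one_pow ⟨_, rfl⟩]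
        calc (-1 : ℝ) ^ (j + 1 + h * j / k)
            = (-1 : ℝ) ^ (j + 1 + h * j / k) * (((-1 : ℝ) ^ (1 + j + h * j % k)) *
                ((-1 : ℝ) ^ (1 + j + h * j % k))) := by rw [h5, mul_one]
          _ = ((-1 : ℝ) ^ (j + 1 + h * j / k) * ((-1 : ℝ) ^ (1 + j + h * j % k))) *
                ((-1 : ℝ) ^ (1 + j + h * j % k)) := by ring
          _ = _ := by rw [h4, one_mul]
      rw [e3, pow_add, pow_add, pow_one]
      ring
    · have hep : eps k h = 1 := by
        rw [eps_ne hne, hval, ho.neg_one_pow]; norm_num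
      rw [hep, sub_self, neg_zero, zero_div, zero_mul, hSp, ← sum_eps_mul hk hne,
        sum_zmod' _ (by rw [mul_zero, eps_zero])]
      refine Finset.sum_congr rfl fun j hj => ?_
      obtain ⟨hj1, hjlt⟩ := Finset.mem_Ico.1 hj
      have hjne := cast_ne hj1 hjlt
      have hv : ((h : ZMod k) * (j : ZMod k)).val = h * j % k := by
        rw [← Nat.cast_mul, ZMod.val_natCast]
      rw [eps_ne (mul_ne_zero hne hjne), hv]
      have hpar : Even (j + 1 + h * j / k + (1 + h * j % k)) := by
        have hm := hmod j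
        generalize h * j / k = q at hm ⊢
        generalize h * j % k = r at hm ⊢
        have h2 : ¬ Even k := Nat.not_even_iff_odd.2 (Nat.odd_iff.2 hodd)
        have h2' : ¬ Even h := Nat.not_even_iff_odd.2 ho
        have h1 : Even (k * q + r) ↔ Even (h * j) := by rw [hm]
        rw [Nat.even_add, Nat.even_mul, Nat.even_mul] at h1
        have h3 : Even (j + (q + r)) := by
          rw [Nat.even_add, Nat.even_add]
          tauto
        obtain ⟨m, hm⟩ := h3
        exact ⟨m + 1, by omega⟩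
      have h4 := hpar.neg_one_pow (α := ℝ)
      rw [pow_add _ (j + 1 + h * j / k)] at h4
      have h5 : ((-1 : ℝ) ^ (1 + h * j % k)) * ((-1 : ℝ) ^ (1 + h * j % k)) = 1 := by
        rw [← pow_add, Even.neg_one_pow ⟨_, rfl⟩]
      have e3 : (-1 : ℝ) ^ (j + 1 + h * j / k) = (-1 : ℝ) ^ (1 + h * j % k) := by
        calc (-1 : ℝ) ^ (j + 1 + h * j / k)
            = (-1 : ℝ) ^ (j + 1 + h * j / k) * (((-1 : ℝ) ^ (1 + h * j % k)) *
                ((-1 : ℝ) ^ (1 + h * j % k))) := by rw [h5, mul_one]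
          _ = ((-1 : ℝ) ^ (j + 1 + h * j / k) * ((-1 : ℝ) ^ (1 + h * j % k))) *
                ((-1 : ℝ) ^ (1 + h * j % k)) := by ring
          _ = _ := by rw [h4, one_mul]
      rw [e3, pow_add, pow_one]
      ring
  have hS : (S k : ℝ) = ∑ h ∈ Finset.Ico 1 k, (Sp h k : ℝ) := by
    unfold S; push_cast; rfl
  rw [hS, Finset.sum_congr rfl key]
  rw [← sum_zmod' (fun h : ZMod k => -(1 - eps k h) / 2 *
    ∑ j : ZMod k, eps k j * eps k (h * j)) (by simp [eps_zero])]
  have hzero : ∑ h : ZMod k, ∑ j : ZMod k, eps k j * eps k (h * j) = 0 := by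
    rw [Finset.sum_comm]
    refine Finset.sum_eq_zero fun j _ => ?_
    by_cases hj : j = 0
    · subst hj; simp [eps_zero]
    · rw [← Finset.mul_sum]
      have : ∑ i : ZMod k, eps k (i * j) = 0 := by
        rw [← sum_eps_mul hk hj]
        exact Finset.sum_congr rfl fun i _ => by rw [mul_comm]
      rw [this, mul_zero]
  have h1 : ∀ h : ZMod k, -(1 - eps k h) / 2 * ∑ j : ZMod k, eps k j * eps k (h * j) =
      1 / 2 * (∑ j : ZMod k, eps k h * eps k j * eps k (h * j)) -
        1 / 2 * ∑ j : ZMod k, eps k j * eps k (h * j) := by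
    intro h
    have : ∑ j : ZMod k, eps k h * eps k j * eps k (h * j) =
        eps k h * ∑ j : ZMod k, eps k j * eps k (h * j) := by
      rw [Finset.mul_sum]
      exact Finset.sum_congr rfl fun j _ => by ring
    rw [this]; ring
  rw [Finset.sum_congr rfl fun h _ => h1 h, Finset.sum_sub_distrib, ← Finset.mul_sum,
    ← Finset.mul_sum, hzero, mul_zero, sub_zero]

/-! ## Fourier expansion -/

theorem pf_FOU (hFOT : TARGET_FOT) : TARGET_FOU := by
  intro k hkp hk x
  have hp : k.Prime := Fact.out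
  have : NeZero k := ⟨hp.ne_zero⟩
  have hodd : k % 2 = 1 := (hp.eq_two_or_odd).resolve_left hk
  have h2ne : (2 : ZMod k) ≠ 0 := by
    intro h0
    have h1 : ((2 : ℕ) : ZMod k) = 0 := by exact_mod_cast h0
    rw [ZMod.natCast_eq_zero_iff] at h1
    have := Nat.le_of_dvd (by norm_num) h1
    have := hp.two_le
    omega
  set e : ZMod k → ℂ := fun z => ZMod.stdAddChar z with he
  set s : ZMod k → ℝ := fun z => (ZMod.stdAddChar z).im with hs
  have hneg : ∀ z : ZMod k, ZMod.stdAddChar (-z) = (starRingEnd ℂ) (ZMod.stdAddChar z) :=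
    fun z => AddChar.map_neg_eq_conj _ _
  have hsneg : ∀ z : ZMod k, s (-z) = - s z := by
    intro z
    show (ZMod.stdAddChar (-z)).im = -(ZMod.stdAddChar z).im
    rw [hneg, Complex.conj_im]
  have hprod : ∀ a b : ZMod k, s a * s b =
      ((ZMod.stdAddChar (a - b)).re - (ZMod.stdAddChar (a + b)).re) / 2 := by
    intro a b
    show (ZMod.stdAddChar a).im * (ZMod.stdAddChar b).im = _
    rw [sub_eq_add_neg a b, AddChar.map_add_eq_mul, AddChar.map_add_eq_mul, hneg,
      Complex.mul_re, Complex.mul_re, Complex.conj_re, Complex.conj_im]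
    ring
  have horth : ∀ z : ZMod k, ∑ c : ZMod k, (ZMod.stdAddChar (c * z)).re =
      if z = 0 then (k : ℝ) else 0 := by
    intro z
    have h1 := AddChar.sum_mulShift z (ZMod.isPrimitive_stdAddChar k)
    have h2 := congrArg Complex.re h1
    rw [Complex.re_sum] at h2
    rw [h2]
    split_ifs <;> simp [ZMod.card]
  have horth2 : ∀ j : ZMod k, ∑ c : ZMod k, s (c * x) * s (c * j) =
      ((if x = j then (k : ℝ) else 0) - (if x = -j then (k : ℝ) else 0)) / 2 := by
    intro j
    have h1 : ∀ c : ZMod k, s (c * x) * s (c * j) =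
        ((ZMod.stdAddChar (c * (x - j))).re - (ZMod.stdAddChar (c * (x + j))).re) / 2 := by
      intro c
      rw [hprod, mul_sub, mul_add]
    rw [Finset.sum_congr rfl fun c _ => h1 c, ← Finset.sum_div, Finset.sum_sub_distrib,
      horth, horth]
    simp only [sub_eq_zero, add_eq_zero_iff_eq_neg]
  set g : ZMod k → ℝ := fun c => ∑ j : ZMod k, eps k j * s (c * j) with hg
  have hmain : (k : ℝ) * eps k x = ∑ c : ZMod k, s (c * x) * g c := by
    have h1 : ∑ c : ZMod k, s (c * x) * g c =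
        ∑ j : ZMod k, eps k j * ∑ c : ZMod k, s (c * x) * s (c * j) := by
      simp only [hg, Finset.mul_sum]
      rw [Finset.sum_comm]
      refine Finset.sum_congr rfl fun j _ => Finset.sum_congr rfl fun c _ => ?_
      ring
    rw [h1]
    have h2 : ∀ j : ZMod k, eps k j * ∑ c : ZMod k, s (c * x) * s (c * j) =
        (if x = j then (k : ℝ) / 2 * eps k j else 0) -
          (if j = -x then (k : ℝ) / 2 * eps k j else 0) := by
      intro j
      rw [horth2]
      have hiff : x = -j ↔ j = -x := by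
        constructor
        · intro h; rw [h, neg_neg]
        · intro h; rw [h, neg_neg]
      simp only [hiff]
      split_ifs <;> ring
    rw [Finset.sum_congr rfl fun j _ => h2 j, Finset.sum_sub_distrib,
      Finset.sum_ite_eq, Finset.sum_ite_eq', if_pos (Finset.mem_univ _),
      if_pos (Finset.mem_univ _), eps_neg hk]
    ring
  -- evaluation on the odd residues
  have hgodd : ∀ c : ZMod k, g (-c) = - g c := by
    intro c
    simp only [hg]
    rw [← Finset.sum_neg_distrib]
    refine Finset.sum_congr rfl fun j _ => ?_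
    rw [neg_mul, hsneg]; ring
  set F : ZMod k → ℝ := fun c => s (c * x) * g c with hF
  have hFeven : ∀ c : ZMod k, F (-c) = F c := by
    intro c
    simp only [hF]
    rw [neg_mul, hsneg, hgodd]; ring
  have hF0 : F 0 = 0 := by
    simp only [hF, hs]
    simp
  have hshift : ∑ c : ZMod k, F c = ∑ v : ZMod k, F (v * (2 : ZMod k)⁻¹) := by
    refine (Fintype.sum_equiv (Equiv.mulRight₀ (2 : ZMod k)⁻¹ (inv_ne_zero h2ne)) _ _
      fun v => ?_).symm
    rfl
  have hsplit : ∑ v : ZMod k, F (v * (2 : ZMod k)⁻¹) =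
      2 * ∑ v ∈ odds k, F ((v : ZMod k) * (2 : ZMod k)⁻¹) := by
    rw [sum_zmod' _ (by rw [zero_mul, hF0])]
    rw [← Finset.sum_filter_add_sum_filter_not (Finset.Ico 1 k) (fun v => v % 2 = 1)]
    have e1 : (Finset.Ico 1 k).filter (fun v => v % 2 = 1) = odds k := by
      ext v
      simp only [odds, Finset.mem_filter, Finset.mem_Ico, Finset.mem_range]
      constructor
      · rintro ⟨⟨h1, h2⟩, h3⟩; exact ⟨h2, h3⟩
      · rintro ⟨h2, h3⟩; exact ⟨⟨by omega, h2⟩, h3⟩
    have e2 : ∑ v ∈ (Finset.Ico 1 k).filter (fun v => ¬ v % 2 = 1),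
        F ((v : ZMod k) * (2 : ZMod k)⁻¹) = ∑ v ∈ odds k, F ((v : ZMod k) * (2 : ZMod k)⁻¹) := by
      refine Finset.sum_nbij' (fun v => k - v) (fun v => k - v) ?_ ?_ ?_ ?_ ?_
      · intro v hv
        simp only [odds, Finset.mem_filter, Finset.mem_Ico, Finset.mem_range] at hv ⊢
        omega
      · intro v hv
        simp only [odds, Finset.mem_filter, Finset.mem_Ico, Finset.mem_range] at hv ⊢
        omega
      · intro v hv
        simp only [Finset.mem_filter, Finset.mem_Ico] at hv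
        omega
      · intro v hv
        simp only [odds, Finset.mem_filter, Finset.mem_range] at hv
        omega
      · intro v hv
        simp only [Finset.mem_filter, Finset.mem_Ico] at hv
        rw [Nat.cast_sub (by omega), ZMod.natCast_self, zero_sub, neg_mul, hFeven]
    rw [e1, e2]; ring
  have hfot : ∀ v ∈ odds k, g ((v : ZMod k) * (2 : ZMod k)⁻¹) = - w k v := by
    intro v hv
    exact hFOT k hk v hv
  have hfin : (k : ℝ) * eps k x = 2 * ∑ v ∈ odds k, F ((v : ZMod k) * (2 : ZMod k)⁻¹) := by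
    rw [hmain, ← hsplit, ← hshift]
  have hFv : ∑ v ∈ odds k, F ((v : ZMod k) * (2 : ZMod k)⁻¹) =
      - ∑ v ∈ odds k, w k v * (ZMod.stdAddChar ((v : ZMod k) * (2 : ZMod k)⁻¹ * x)).im := by
    rw [← Finset.sum_neg_distrib]
    refine Finset.sum_congr rfl fun v hv => ?_
    simp only [hF]
    rw [hfot v hv]
    simp only [hs]
    ring
  rw [hFv] at hfin
  have hkR : (0 : ℝ) < k := by exact_mod_cast hp.pos
  generalize ∑ v ∈ odds k, w k v * (ZMod.stdAddChar ((v : ZMod k) * (2 : ZMod k)⁻¹ * x)).im = A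
    at hfin ⊢
  have : eps k x = ((k : ℝ) * eps k x) / k := by field_simp
  rw [this, hfin]
  ring

end Pool.Agent.H14.PO
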